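import Mathlib
import Pool.Agent.Q74.Diff.Rec

/-!
# Unbounded solutions of `x (n+1) = (β x n + x (n-1)) / x (n-2)`

For every `0 < β < 1` the solution with initial values `√β, N, √β`, `N` large, is unbounded: the
terms of odd index grow geometrically, while the terms of even index stay near `√β`.
-/

set_option autoImplicit false

namespace Pool.Agent.Results.MP_1cbbe5_an.Unbounded

open Pool.Agent.Q74.Diff

/-- For every `0 < β < 1` the recursion has an unbounded positive solution (`x n` is the term of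
index `n - 2`). -/
theorem result (β : ℝ) (h0 : 0 < β) (h1 : β < 1) :
    ∃ x : ℕ → ℝ, (∀ n, 0 < x n) ∧ (∀ n, x (n + 3) = (β * x (n + 2) + x (n + 1)) / x n) ∧
      ¬ BddAbove (Set.range x) := by
  obtain ⟨r, hr0, hr1, hr4⟩ : ∃ r : ℝ, 0 < r ∧ r < 1 ∧ r ^ 4 = β := by
    refine ⟨β ^ (1 / 4 : ℝ), Real.rpow_pos_of_pos h0 _, Real.rpow_lt_one h0.le h1 (by norm_num), ?_⟩
    rw [← Real.rpow_natCast, ← Real.rpow_mul h0.le]
    norm_num
  set N : ℝ := 2 / (r * (1 - r) ^ 2) with hN
  have hr1' : 0 < 1 - r := by linarith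
  have hN0 : 0 < N := by positivity
  obtain ⟨x, hx0, hx1, hx2, hx⟩ :=
    exists_seq (fun a b c => (β * c + b) / a) (r ^ 2) N (r ^ 2)
  have hpos : ∀ n, 0 < x n := by
    apply pos_of_rec
    · rw [hx0]; positivity
    · rw [hx1]; positivity
    · rw [hx2]; positivity
    · intro n a b c
      rw [hx]
      positivity
  refine ⟨x, hpos, hx, ?_⟩
  -- the upper barrier
  set U : ℕ → ℝ := fun k => r - (1 - r) * r ^ (k + 1) with hU
  have hU1 : ∀ k, U k < 1 := by
    intro k
    have : 0 < (1 - r) * r ^ (k + 1) := by positivity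
    simp only [hU]
    linarith
  have hUr : ∀ k, U k ≤ r := by
    intro k
    have : 0 < (1 - r) * r ^ (k + 1) := by positivity
    simp only [hU]
    linarith
  have hU0 : ∀ k, 0 < U k := by
    intro k
    have h : r ^ (k + 1) ≤ r := by
      rw [pow_succ]
      have : r ^ k ≤ 1 := pow_le_one₀ hr0.le hr1.le
      nlinarith
    simp only [hU]
    nlinarith
  have hUs : ∀ k, U (k + 1) - U k = (1 - r) ^ 2 * r ^ (k + 1) := by
    intro k
    simp only [hU]
    ring
  have key : ∀ k, (r ^ 4 ≤ x (2 * k) * U k ∧ x (2 * k) ≤ U k) ∧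
      (r ^ 4 ≤ x (2 * k + 2) * U k ∧ x (2 * k + 2) ≤ U k) ∧ N ≤ x (2 * k + 1) * r ^ k := by
    intro k
    induction k with
    | zero =>
      have h : U 0 = r ^ 2 := by simp only [hU]; ring
      simp only [Nat.mul_zero, Nat.zero_add, h, hx0, hx1, hx2]
      refine ⟨⟨?_, le_rfl⟩, ⟨?_, le_rfl⟩, ?_⟩
      · apply le_of_eq; ring
      · apply le_of_eq; ring
      · simp
    | succ k ih =>
      obtain ⟨⟨ha1, ha2⟩, ⟨hc1, hc2⟩, hb⟩ := ih
      have e1 : x (2 * k + 3) = (β * x (2 * k + 2) + x (2 * k + 1)) / x (2 * k) := hx (2 * k)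
      have e2 : x (2 * k + 4) = (β * x (2 * k + 3) + x (2 * k + 2)) / x (2 * k + 1) :=
        hx (2 * k + 1)
      have i1 : 2 * (k + 1) = 2 * k + 2 := by ring
      have i2 : 2 * (k + 1) + 2 = 2 * k + 4 := by ring
      have i3 : 2 * (k + 1) + 1 = 2 * k + 3 := by ring
      rw [i1, show 2 * k + 2 + 2 = 2 * k + 4 by ring, show 2 * k + 2 + 1 = 2 * k + 3 by ring]
      have pa := hpos (2 * k)
      have pb := hpos (2 * k + 1)
      have pc := hpos (2 * k + 2)
      have pb' := hpos (2 * k + 3)
      have pa' := hpos (2 * k + 4)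
      set a := x (2 * k) with hadef
      set b := x (2 * k + 1) with hbdef
      set c := x (2 * k + 2) with hcdef
      set b' := x (2 * k + 3) with hb'def
      set a' := x (2 * k + 4) with ha'def
      have u0 := hU0 k
      have u1 := hU1 k
      have us := hUs k
      have hmono : U k ≤ U (k + 1) := by
        have : 0 < (1 - r) ^ 2 * r ^ (k + 1) := by positivity
        linarith
      -- the quotient `r ^ 4 / a`
      have q1 : r ^ 4 / a ≤ U k := by
        rw [div_le_iff₀ pa]; linarith [mul_comm a (U k)]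
      have q2 : r ^ 4 ≤ r ^ 4 / a * U k := by
        rw [div_mul_eq_mul_div, le_div_iff₀ pa]
        have : 0 < r ^ 4 := by positivity
        nlinarith
      have e3 : a' = r ^ 4 / a + (r ^ 4 * (r ^ 4 / a) * c + c) / b := by
        rw [e2, e1, ← hr4]
        field_simp
        ring
      have herr : (r ^ 4 * (r ^ 4 / a) * c + c) / b ≤ (1 - r) ^ 2 * r ^ (k + 1) := by
        have h1 : (r ^ 4 * (r ^ 4 / a) * c + c) ≤ 2 := by
          have h3 : r ^ 4 ≤ 1 := pow_le_one₀ hr0.le hr1.le
          have h4 : 0 < r ^ 4 / a := by positivity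
          have h5 : r ^ 4 * (r ^ 4 / a) ≤ 1 := by nlinarith
          have h6 : 0 < r ^ 4 * (r ^ 4 / a) := by positivity
          have h7 : c ≤ 1 := by linarith
          nlinarith
        have h2 : 2 ≤ (1 - r) ^ 2 * r ^ (k + 1) * b := by
          have : (1 - r) ^ 2 * r ^ (k + 1) * b = (r * (1 - r) ^ 2) * (b * r ^ k) := by ring
          rw [this]
          calc (2 : ℝ) = (r * (1 - r) ^ 2) * N := by rw [hN]; field_simp
            _ ≤ _ := by gcongr
        rw [div_le_iff₀ pb]
        linarith
      have hpe : 0 ≤ (r ^ 4 * (r ^ 4 / a) * c + c) / b := by positivity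
      refine ⟨⟨?_, ?_⟩, ⟨?_, ?_⟩, ?_⟩
      · exact hc1.trans (mul_le_mul_of_nonneg_left hmono pc.le)
      · linarith
      · have h4 : 0 < r ^ 4 / a := by positivity
        have : r ^ 4 / a * U k ≤ a' * U (k + 1) := by
          apply mul_le_mul _ hmono u0.le pa'.le
          linarith
        linarith
      · linarith
      · have h5 : a ≤ r := ha2.trans (hUr k)
        have h6 : b ≤ b' * r := by
          have : b' * a = β * c + b := by rw [e1]; field_simp
          have : b ≤ b' * a := by nlinarith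
          nlinarith
        calc N ≤ b * r ^ k := hb
          _ ≤ (b' * r) * r ^ k := by gcongr
          _ = b' * r ^ (k + 1) := by ring
  rintro ⟨B, hB⟩
  obtain ⟨k, hk⟩ := exists_pow_lt_of_lt_one (show 0 < N / (|B| + 1) by positivity) hr1
  have h1 := (key k).2.2
  have h2 : x (2 * k + 1) ≤ B := hB ⟨_, rfl⟩
  have h3 : B ≤ |B| + 1 := by linarith [le_abs_self B]
  have h4 : x (2 * k + 1) * r ^ k ≤ (|B| + 1) * r ^ k := by
    gcongr
    linarith
  have h5 : (|B| + 1) * r ^ k < N := by
    rw [lt_div_iff₀ (by positivity)] at hk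
    linarith
  linarith

end Pool.Agent.Results.MP_1cbbe5_an.Unbounded
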